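import Pool.Agent.HQ.HardyAll
import Pool.Agent.HQT.Three
import Pool.Agent.HQT.Lewy

/-!
MP_7da5c3_an, Q1 for every harmonic mapping, without normalisation and without assumption on the
orientation or the Jacobian: if `h`, `g` are analytic in the unit disc and `h + conj g` is injective
there, then the `p`-th integral means of `h` and of `g` are bounded for every `0 < p < 1/3`.
-/

set_option autoImplicit false

namespace Pool.Agent.Results.MP_7da5c3_an.AllHarmonicMaps

theorem result (h g : ℂ → ℂ)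
    (hh : DifferentiableOn ℂ h (Metric.ball (0 : ℂ) 1))
    (hg : DifferentiableOn ℂ g (Metric.ball (0 : ℂ) 1))
    (hinj : Set.InjOn (fun z => h z + (starRingEnd ℂ) (g z)) (Metric.ball (0 : ℂ) 1))
    (p : ℝ) (hp : 0 < p) (hp1 : p < 1 / 3) :
    (∃ M : ℝ, ∀ r : ℝ, 0 ≤ r → r < 1 →
      ∫ θ in (0 : ℝ)..(2 * Real.pi),
        ‖h ((r : ℂ) * Complex.exp ((θ : ℂ) * Complex.I))‖ ^ p ≤ M) ∧
    (∃ M : ℝ, ∀ r : ℝ, 0 ≤ r → r < 1 →
      ∫ θ in (0 : ℝ)..(2 * Real.pi),
        ‖g ((r : ℂ) * Complex.exp ((θ : ℂ) * Complex.I))‖ ^ p ≤ M) := by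
  rcases Pool.Agent.HQT.lewy_sign hh hg hinj with h1 | h1
  · exact Pool.Agent.HQ.hardy_all (Real.exp_pos _) (by norm_num)
      Pool.Agent.HQT.growthBound_three hh hg hinj h1 hp hp1
  · have hinj2 : Set.InjOn (fun z => g z + (starRingEnd ℂ) (h z)) (Metric.ball (0 : ℂ) 1) := by
      intro z hz w hw hzw
      apply hinj hz hw
      have h2 := congrArg (starRingEnd ℂ) hzw
      simp only [map_add, Complex.conj_conj] at h2
      show h z + (starRingEnd ℂ) (g z) = h w + (starRingEnd ℂ) (g w)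
      rw [add_comm (h z), add_comm (h w)]
      exact h2
    have h3 := Pool.Agent.HQ.hardy_all (Real.exp_pos _) (by norm_num)
      Pool.Agent.HQT.growthBound_three hg hh hinj2 h1 hp hp1
    exact ⟨h3.2, h3.1⟩

end Pool.Agent.Results.MP_7da5c3_an.AllHarmonicMaps
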